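import Mathlib

namespace MP33509c
open Finset

lemma two_mul_card_le (n : ℕ) (A : Finset ℕ) (hA : ∀ a ∈ A, a * a < n) :
    2 * (A.filter (fun a => a ∣ n)).card ≤ n.divisors.card := by
  classical
  rcases Nat.eq_zero_or_pos n with h0 | hn
  · subst h0
    have : A = ∅ := by
      apply Finset.eq_empty_of_forall_notMem
      intro a ha
      exact absurd (hA a ha) (Nat.not_lt_zero _)
    simp [this]
  set D := A.filter (fun a => a ∣ n) with hD
  have hDn : ∀ a ∈ D, a ∣ n ∧ a * a < n := by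
    intro a ha
    rw [hD, Finset.mem_filter] at ha
    exact ⟨ha.2, hA a ha.1⟩
  have hcard : (D.image (fun a => n / a)).card = D.card := by
    apply Finset.card_image_of_injOn
    intro a ha b hb hab
    obtain ⟨ha1, -⟩ := hDn a ha
    obtain ⟨hb1, -⟩ := hDn b hb
    simp only at hab
    have h1 : n / (n / a) = a := Nat.div_div_self ha1 hn.ne'
    have h2 : n / (n / b) = b := Nat.div_div_self hb1 hn.ne'
    rw [← h1, ← h2, hab]
  have hdisj : Disjoint D (D.image (fun a => n / a)) := by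
    rw [Finset.disjoint_left]
    intro a ha ha'
    rw [Finset.mem_image] at ha'
    obtain ⟨b, hb, hba⟩ := ha'
    obtain ⟨-, ha2⟩ := hDn a ha
    obtain ⟨hb1, hb2⟩ := hDn b hb
    have h3 : b * a = n := by rw [← hba]; exact Nat.mul_div_cancel' hb1
    have h4 : (a * a) * (b * b) < n * n := Nat.mul_lt_mul'' ha2 hb2
    have h5 : (a * a) * (b * b) = n * n := by rw [← h3]; ring
    omega
  calc 2 * D.card = D.card + (D.image (fun a => n / a)).card := by rw [hcard]; ring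
    _ = (D ∪ D.image (fun a => n / a)).card := (Finset.card_union_of_disjoint hdisj).symm
    _ ≤ n.divisors.card := by
      apply Finset.card_le_card
      intro a ha
      rw [Finset.mem_union, Finset.mem_image] at ha
      rw [Nat.mem_divisors]
      refine ⟨?_, hn.ne'⟩
      rcases ha with ha | ⟨b, hb, rfl⟩
      · exact (hDn a ha).1
      · exact Nat.div_dvd_of_dvd (hDn b hb).1

/-- the density weight of the congruences -/
def rho (a b c : ℕ) : ℕ :=
  if Nat.Coprime b a ∧ Nat.Coprime b c ∧ Nat.gcd a c ∣ 2 then Nat.gcd a c else 0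

lemma exists_sol (a b c : ℕ) (hb : 0 < b) (hc : 0 < c)
    (h1 : Nat.Coprime b a) (h2 : Nat.Coprime b c) (h3 : Nat.gcd a c ∣ 2) :
    ∃ n0 : ℕ, ∀ n : ℕ, n ≡ n0 [MOD (Nat.lcm a c * b)] → a ∣ n ∧ b ∣ n + 1 ∧ c ∣ n + 2 := by
  have hcomp : 0 ≡ 2 * (c - 1) [MOD Nat.gcd a c] := by
    rw [Nat.ModEq.comm]
    exact (Nat.modEq_zero_iff_dvd).2 (Dvd.dvd.mul_right h3 _)
  obtain ⟨k1, hk1, hk2⟩ := Nat.chineseRemainder' hcomp
  have hcop : Nat.Coprime (Nat.lcm a c) b := by
    apply Nat.Coprime.symm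
    have : Nat.Coprime b (a * c) := Nat.Coprime.mul_right h1 h2
    exact Nat.Coprime.coprime_dvd_right (Nat.lcm_dvd_mul a c) this
  obtain ⟨n0, hn1, hn2⟩ := Nat.chineseRemainder hcop k1 (b - 1)
  refine ⟨n0, fun n hn => ?_⟩
  have e1 : n ≡ k1 [MOD Nat.lcm a c] :=
    (Nat.ModEq.of_mul_right b hn).trans hn1
  have e2 : n ≡ b - 1 [MOD b] := (Nat.ModEq.of_mul_left (Nat.lcm a c) hn).trans hn2
  have e3 : n ≡ 0 [MOD a] := (e1.of_dvd (Nat.dvd_lcm_left a c)).trans hk1
  have e4 : n ≡ 2 * (c - 1) [MOD c] := (e1.of_dvd (Nat.dvd_lcm_right a c)).trans hk2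
  refine ⟨(Nat.modEq_zero_iff_dvd).1 e3, ?_, ?_⟩
  · have := e2.add_right 1
    rw [Nat.sub_add_cancel hb] at this
    exact (Nat.modEq_zero_iff_dvd).1 (this.trans (by simp [Nat.ModEq]))
  · have := e4.add_right 2
    have h5 : 2 * (c - 1) + 2 = c * 2 := by omega
    rw [h5] at this
    exact (Nat.modEq_zero_iff_dvd).1 (this.trans (by simp [Nat.ModEq]))

lemma count_modEq_ge (L n0 Y X : ℕ) (hL : 0 < L) :
    ((X : ℝ) - Y) / L - 1 ≤ (((Ioc Y X).filter (fun n => n ≡ n0 [MOD L])).card : ℝ) := by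
  have h := Nat.Ioc_filter_modEq_card Y X hL n0
  have h' : ((((Ioc Y X).filter (fun n => n ≡ n0 [MOD L])).card : ℤ) : ℝ) =
      ((max (⌊((X : ℚ) - n0) / L⌋ - ⌊((Y : ℚ) - n0) / L⌋) 0 : ℤ) : ℝ) := by
    exact_mod_cast h
  have h2 : (((⌊((X : ℚ) - n0) / L⌋ - ⌊((Y : ℚ) - n0) / L⌋ : ℤ)) : ℝ) ≤
      (((Ioc Y X).filter (fun n => n ≡ n0 [MOD L])).card : ℝ) := by
    have : ((((Ioc Y X).filter (fun n => n ≡ n0 [MOD L])).card : ℤ) : ℝ) =
      (((Ioc Y X).filter (fun n => n ≡ n0 [MOD L])).card : ℝ) := by push_cast; rfl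
    rw [← this, h']
    exact_mod_cast le_max_left _ _
  refine le_trans ?_ h2
  have h3 : ((X : ℚ) - n0) / L - 1 ≤ ⌊((X : ℚ) - n0) / L⌋ := (Int.sub_one_lt_floor _).le
  have h4 : (⌊((Y : ℚ) - n0) / L⌋ : ℚ) ≤ ((Y : ℚ) - n0) / L := Int.floor_le _
  have h5 : ((X : ℚ) - Y) / L - 1 ≤ ((⌊((X : ℚ) - n0) / L⌋ - ⌊((Y : ℚ) - n0) / L⌋ : ℤ) : ℚ) := by
    push_cast
    have : ((X : ℚ) - Y) / L = ((X : ℚ) - n0) / L - ((Y : ℚ) - n0) / L := by ring
    rw [this]; linarith
  have h6 : ((((X : ℚ) - Y) / L - 1 : ℚ) : ℝ) ≤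
      (((⌊((X : ℚ) - n0) / L⌋ - ⌊((Y : ℚ) - n0) / L⌋ : ℤ) : ℚ) : ℝ) := by
    exact_mod_cast h5
  push_cast at h6 ⊢
  exact h6

lemma count_ge (a b c Y X : ℕ) (ha : 0 < a) (hb : 0 < b) (hc : 0 < c) :
    (rho a b c : ℝ) * ((X : ℝ) - Y) / (a * b * c) - 1 ≤
      (((Ioc Y X).filter (fun n => a ∣ n ∧ b ∣ n + 1 ∧ c ∣ n + 2)).card : ℝ) := by
  classical
  unfold rho
  split_ifs with h
  · obtain ⟨h1, h2, h3⟩ := h
    obtain ⟨n0, hn0⟩ := exists_sol a b c hb hc h1 h2 h3
    have hL : 0 < Nat.lcm a c * b := Nat.mul_pos (Nat.lcm_pos ha hc) hb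
    have h4 := count_modEq_ge (Nat.lcm a c * b) n0 Y X hL
    have h5 : ((Ioc Y X).filter (fun n => n ≡ n0 [MOD (Nat.lcm a c * b)])).card ≤
        ((Ioc Y X).filter (fun n => a ∣ n ∧ b ∣ n + 1 ∧ c ∣ n + 2)).card := by
      apply Finset.card_le_card
      intro n hn
      rw [Finset.mem_filter] at hn ⊢
      exact ⟨hn.1, hn0 n hn.2⟩
    have h6 : (Nat.gcd a c : ℝ) * ((X : ℝ) - Y) / (a * b * c) =
        ((X : ℝ) - Y) / ((Nat.lcm a c * b : ℕ) : ℝ) := by
      have h7 : Nat.gcd a c * Nat.lcm a c = a * c := Nat.gcd_mul_lcm a c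
      have h8 : (Nat.gcd a c : ℝ) * (Nat.lcm a c : ℝ) = (a : ℝ) * c := by exact_mod_cast h7
      have hg : (0 : ℝ) < Nat.gcd a c := by exact_mod_cast Nat.gcd_pos_of_pos_left c ha
      have hl : (0 : ℝ) < Nat.lcm a c := by exact_mod_cast Nat.lcm_pos ha hc
      have hb' : (0 : ℝ) < b := by exact_mod_cast hb
      have h9 : (a : ℝ) * b * c = (Nat.gcd a c : ℝ) * (Nat.lcm a c : ℝ) * b := by
        rw [h8]; ring
      rw [h9]
      push_cast
      field_simp
    rw [h6]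
    exact h4.trans (by exact_mod_cast h5)
  · simp
    have : (0 : ℝ) ≤ (((Ioc Y X).filter (fun n => a ∣ n ∧ b ∣ n + 1 ∧ c ∣ n + 2)).card : ℝ) :=
      Nat.cast_nonneg _
    linarith

lemma log_step_sum (a Q : ℕ) (ha : 0 < a) (J : ℕ) :
    Real.log (((a : ℝ) + J * Q) / a) ≤ ∑ j ∈ range J, (Q : ℝ) / (a + j * Q) := by
  induction J with
  | zero =>
    have : (a : ℝ) ≠ 0 := by positivity
    simp [this]
  | succ J ih =>
    rw [Finset.sum_range_succ]
    have ha' : (0 : ℝ) < a := by exact_mod_cast ha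
    have hpos : (0 : ℝ) < (a : ℝ) + J * Q := by positivity
    have h1 : ((a : ℝ) + ((J + 1 : ℕ) : ℝ) * Q) / a =
        (((a : ℝ) + J * Q) / a) * (1 + (Q : ℝ) / (a + J * Q)) := by
      push_cast
      field_simp
      ring
    rw [h1, Real.log_mul (by positivity) (by positivity)]
    have h2 : Real.log (1 + (Q : ℝ) / (a + J * Q)) ≤ (Q : ℝ) / (a + J * Q) := by
      have h3 : (0 : ℝ) < 1 + (Q : ℝ) / (a + J * Q) := by positivity
      have := Real.log_le_sub_one_of_pos h3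
      linarith
    linarith

lemma W_ge (Q A B : ℕ) [NeZero Q] (r : ZMod Q) :
    Real.log ((B : ℝ) / (A + Q)) / Q ≤
      ∑ a ∈ (Ioc A B).filter (fun a => ((a : ℕ) : ZMod Q) = r), 1 / (a : ℝ) := by
  classical
  have hQ : 0 < Q := Nat.pos_of_ne_zero (NeZero.ne Q)
  have hQ' : (0 : ℝ) < Q := by exact_mod_cast hQ
  have hsum0 : 0 ≤ ∑ a ∈ (Ioc A B).filter (fun a => ((a : ℕ) : ZMod Q) = r), 1 / (a : ℝ) :=
    Finset.sum_nonneg (fun a _ => by positivity)
  set a1 : ℕ := A + 1 + (r - ((A + 1 : ℕ) : ZMod Q)).val with ha1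
  have hval : (r - ((A + 1 : ℕ) : ZMod Q)).val < Q := ZMod.val_lt _
  have ha1le : a1 ≤ A + Q := by omega
  have ha1r : ((a1 : ℕ) : ZMod Q) = r := by
    rw [ha1, Nat.cast_add (A + 1), ZMod.natCast_zmod_val]
    ring
  have hApos : (0 : ℝ) < (A : ℝ) + Q := by positivity
  by_cases hB : a1 ≤ B
  · set J := (B - a1) / Q + 1 with hJ
    have hJ1 : B < a1 + J * Q := by
      have := Nat.lt_div_mul_add (a := B - a1) hQ
      rw [hJ]
      have h2 : ((B - a1) / Q + 1) * Q = (B - a1) / Q * Q + Q := by ring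
      omega
    have hJ2 : ∀ j < J, a1 + j * Q ≤ B := by
      intro j hj
      have h2 : j ≤ (B - a1) / Q := by omega
      have h3 : j * Q ≤ (B - a1) / Q * Q := Nat.mul_le_mul_right Q h2
      have h4 : (B - a1) / Q * Q ≤ B - a1 := Nat.div_mul_le_self _ _
      omega
    have h1 := log_step_sum a1 Q (by omega) J
    have h2 : ∑ j ∈ range J, (Q : ℝ) / (a1 + j * Q) ≤
        Q * ∑ a ∈ (Ioc A B).filter (fun a => ((a : ℕ) : ZMod Q) = r), 1 / (a : ℝ) := by
      have hinj : Set.InjOn (fun j : ℕ => a1 + j * Q) (range J : Finset ℕ) := by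
        intro i _ j _ hij
        simp only at hij
        have : i * Q = j * Q := by omega
        exact Nat.eq_of_mul_eq_mul_right hQ this
      have h3 : ∑ j ∈ range J, (Q : ℝ) / (a1 + j * Q) =
          ∑ a ∈ (range J).image (fun j : ℕ => a1 + j * Q), (Q : ℝ) / (a : ℝ) := by
        rw [Finset.sum_image hinj]
        apply Finset.sum_congr rfl
        intro j _
        push_cast
        rfl
      rw [h3, Finset.mul_sum]
      have h4 : (range J).image (fun j : ℕ => a1 + j * Q) ⊆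
          (Ioc A B).filter (fun a => ((a : ℕ) : ZMod Q) = r) := by
        intro a ha
        rw [Finset.mem_image] at ha
        obtain ⟨j, hj, rfl⟩ := ha
        rw [Finset.mem_range] at hj
        rw [Finset.mem_filter, Finset.mem_Ioc]
        refine ⟨⟨by omega, hJ2 j hj⟩, ?_⟩
        push_cast
        rw [ha1r]
        simp
      calc ∑ a ∈ (range J).image (fun j : ℕ => a1 + j * Q), (Q : ℝ) / (a : ℝ)
          ≤ ∑ a ∈ (Ioc A B).filter (fun a => ((a : ℕ) : ZMod Q) = r), (Q : ℝ) / (a : ℝ) := by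
            apply Finset.sum_le_sum_of_subset_of_nonneg h4
            intro a _ _
            positivity
        _ = _ := by
            apply Finset.sum_congr rfl
            intro a _
            ring
    have ha1pos : (0 : ℝ) < a1 := by
      have : 0 < a1 := by omega
      exact_mod_cast this
    have hBpos : (0 : ℝ) < B := by
      have : 0 < B := by omega
      exact_mod_cast this
    have h5 : Real.log ((B : ℝ) / (A + Q)) ≤ Real.log (((a1 : ℝ) + J * Q) / a1) := by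
      apply Real.log_le_log (by positivity)
      have h6 : (B : ℝ) ≤ (a1 : ℝ) + J * Q := by exact_mod_cast hJ1.le
      have h7 : (a1 : ℝ) ≤ (A : ℝ) + Q := by exact_mod_cast ha1le
      apply div_le_div₀ (by positivity) h6 ha1pos h7
    rw [div_le_iff₀ hQ']
    calc Real.log ((B : ℝ) / (A + Q)) ≤ _ := h5
      _ ≤ _ := h1
      _ ≤ _ := h2
      _ = _ := by ring
  · refine le_trans ?_ hsum0
    apply div_nonpos_of_nonpos_of_nonneg _ hQ'.le
    have h1 : (B : ℝ) / (A + Q) ≤ 1 := by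
      rw [div_le_one hApos]
      have : B ≤ A + Q := by omega
      exact_mod_cast this
    exact Real.log_nonpos (by positivity) h1

end MP33509c
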