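import Mathlib

namespace MP33509c
open Finset

/-- `g` is periodic modulo `Q` in each variable, with mean value `M`. -/
def PM (g : ℕ → ℕ → ℕ → ℝ) (M : ℝ) (Q : ℕ) : Prop :=
  ∃ (_ : NeZero Q) (F : ZMod Q → ZMod Q → ZMod Q → ℝ),
    (∀ r s t, 0 ≤ F r s t) ∧ (∀ a b c : ℕ, g a b c = F a b c) ∧
      (∑ r, ∑ s, ∑ t, F r s t = M * (Q : ℝ) ^ 3)

lemma PM_mul {g g' : ℕ → ℕ → ℕ → ℝ} {M M' : ℝ} {Q Q' : ℕ} (h : PM g M Q) (h' : PM g' M' Q')
    (hc : Nat.Coprime Q Q') : PM (fun a b c => g a b c * g' a b c) (M * M') (Q * Q') := by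
  obtain ⟨hQ, F, hF0, hF, hFs⟩ := h
  obtain ⟨hQ', F', hF0', hF', hFs'⟩ := h'
  have hne : NeZero (Q * Q') := ⟨Nat.mul_ne_zero hQ.out hQ'.out⟩
  refine ⟨hne, fun r s t => F (ZMod.chineseRemainder hc r).1 (ZMod.chineseRemainder hc s).1
    (ZMod.chineseRemainder hc t).1 * F' (ZMod.chineseRemainder hc r).2
    (ZMod.chineseRemainder hc s).2 (ZMod.chineseRemainder hc t).2, ?_, ?_, ?_⟩
  · intro r s t
    exact mul_nonneg (hF0 _ _ _) (hF0' _ _ _)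
  · intro a b c
    have h1 : ∀ n : ℕ, ZMod.chineseRemainder hc (n : ZMod (Q * Q')) = ((n : ZMod Q), (n : ZMod Q')) := by
      intro n
      rw [map_natCast]
      rfl
    simp only [h1]
    rw [hF, hF']
  · let e := (ZMod.chineseRemainder hc).toEquiv
    have h2 : ∀ (φ : ZMod Q × ZMod Q' → ℝ), ∑ r : ZMod (Q * Q'), φ (e r) = ∑ u : ZMod Q, ∑ v : ZMod Q', φ (u, v) := by
      intro φ
      rw [Equiv.sum_comp e φ, Fintype.sum_prod_type]
    have h3 : (∑ r : ZMod (Q * Q'), ∑ s : ZMod (Q * Q'), ∑ t : ZMod (Q * Q'),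
        F (e r).1 (e s).1 (e t).1 * F' (e r).2 (e s).2 (e t).2) =
        ∑ u : ZMod Q, ∑ v : ZMod Q', ∑ u2 : ZMod Q, ∑ v2 : ZMod Q', ∑ u3 : ZMod Q, ∑ v3 : ZMod Q',
          F u u2 u3 * F' v v2 v3 := by
      rw [h2 (fun x => ∑ s : ZMod (Q * Q'), ∑ t : ZMod (Q * Q'),
        F x.1 (e s).1 (e t).1 * F' x.2 (e s).2 (e t).2)]
      refine Finset.sum_congr rfl fun u _ => Finset.sum_congr rfl fun v _ => ?_
      simp only
      rw [h2 (fun x => ∑ t : ZMod (Q * Q'),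
        F u x.1 (e t).1 * F' v x.2 (e t).2)]
      refine Finset.sum_congr rfl fun u2 _ => Finset.sum_congr rfl fun v2 _ => ?_
      simp only
      rw [h2 (fun x => F u u2 x.1 * F' v v2 x.2)]
    change (∑ r : ZMod (Q * Q'), ∑ s : ZMod (Q * Q'), ∑ t : ZMod (Q * Q'),
        F (e r).1 (e s).1 (e t).1 * F' (e r).2 (e s).2 (e t).2) = _
    rw [h3]
    have h4 : (∑ u : ZMod Q, ∑ v : ZMod Q', ∑ u2 : ZMod Q, ∑ v2 : ZMod Q', ∑ u3 : ZMod Q, ∑ v3 : ZMod Q',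
          F u u2 u3 * F' v v2 v3) = (∑ u : ZMod Q, ∑ u2 : ZMod Q, ∑ u3 : ZMod Q, F u u2 u3) *
          (∑ v : ZMod Q', ∑ v2 : ZMod Q', ∑ v3 : ZMod Q', F' v v2 v3) := by
      rw [Finset.sum_mul_sum]
      refine Finset.sum_congr rfl fun u _ => Finset.sum_congr rfl fun v _ => ?_
      rw [Finset.sum_mul_sum]
      refine Finset.sum_congr rfl fun u2 _ => Finset.sum_congr rfl fun v2 _ => ?_
      rw [Finset.sum_mul_sum]
    rw [h4, hFs, hFs']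
    push_cast
    ring

/-- local weight at an odd prime -/
noncomputable def gp (p : ℕ) (a b c : ℕ) : ℝ :=
  if (p ∣ a ∧ p ∣ b) ∨ (p ∣ b ∧ p ∣ c) ∨ (p ∣ a ∧ p ∣ c) then 0 else 1

/-- local weight at 2 on residues mod 4 -/
def g2z (u v w : ZMod 4) : ℕ :=
  if (v = 1 ∨ v = 3) ∧ (u = 0 ∨ u = 2) ∧ (w = 0 ∨ w = 2) then (if u = 0 ∧ w = 0 then 0 else 2)
  else if ((u = 0 ∨ u = 2) ∧ (v = 0 ∨ v = 2)) ∨ ((v = 0 ∨ v = 2) ∧ (w = 0 ∨ w = 2)) ∨
    ((u = 0 ∨ u = 2) ∧ (w = 0 ∨ w = 2)) then 0 else 1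

lemma g2z_sum : ∑ u : ZMod 4, ∑ v : ZMod 4, ∑ w : ZMod 4, g2z u v w = 44 := by
  decide

lemma PM_two : PM (fun a b c => (g2z a b c : ℝ)) (11 / 16) 4 := by
  refine ⟨⟨by norm_num⟩, fun r s t => (g2z r s t : ℝ), fun _ _ _ => Nat.cast_nonneg _,
    fun _ _ _ => rfl, ?_⟩
  have := g2z_sum
  have h : ((∑ u : ZMod 4, ∑ v : ZMod 4, ∑ w : ZMod 4, g2z u v w : ℕ) : ℝ) = 44 := by
    rw [this]; norm_num
  push_cast at h
  rw [h]
  norm_num

lemma PM_prime (p : ℕ) (hp : p.Prime) :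
    PM (gp p) ((1 - 1 / (p : ℝ)) ^ 2 * (1 + 2 / (p : ℝ))) p := by
  classical
  have hne : NeZero p := ⟨hp.ne_zero⟩
  refine ⟨hne, fun r s t => if (r = 0 ∧ s = 0) ∨ (s = 0 ∧ t = 0) ∨ (r = 0 ∧ t = 0) then 0 else 1,
    ?_, ?_, ?_⟩
  · intro r s t
    simp only
    split_ifs <;> norm_num
  · intro a b c
    unfold gp
    simp only [ZMod.natCast_eq_zero_iff]
  · have h1 : ∀ r s t : ZMod p, (if (r = 0 ∧ s = 0) ∨ (s = 0 ∧ t = 0) ∨ (r = 0 ∧ t = 0) then (0:ℝ) else 1)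
        = 1 - (if r = 0 then 1 else 0) * (if s = 0 then 1 else 0)
          - (if s = 0 then 1 else 0) * (if t = 0 then 1 else 0)
          - (if r = 0 then 1 else 0) * (if t = 0 then 1 else 0)
          + 2 * ((if r = 0 then 1 else 0) * (if s = 0 then 1 else 0) * (if t = 0 then 1 else 0)) := by
      intro r s t
      by_cases hr : r = 0 <;> by_cases hs : s = 0 <;> by_cases ht : t = 0 <;> simp [hr, hs, ht] <;> norm_num
    simp only [h1]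
    have hp0 : (p : ℝ) ≠ 0 := by exact_mod_cast hp.ne_zero
    simp only [Finset.sum_add_distrib, Finset.sum_sub_distrib, ← Finset.mul_sum, ← Finset.sum_mul,
      Finset.sum_ite_eq', Finset.mem_univ, if_true, Finset.sum_const, Finset.card_univ, ZMod.card,
      nsmul_eq_mul, mul_one]
    field_simp
    ring

end MP33509c
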