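import Mathlib
import Pool.Agent.H.MP_33509c_nt.Count
import Pool.Agent.H.MP_33509c_nt.Mean

namespace MP33509c
open Finset

/-- local density factor -/
noncomputable def fp (p : ℕ) : ℝ := (1 - 1 / (p : ℝ)) ^ 2 * (1 + 2 / (p : ℝ))

lemma PM_prod (s : Finset ℕ) (hs : ∀ p ∈ s, p.Prime ∧ p ≠ 2) :
    PM (fun a b c => (g2z a b c : ℝ) * ∏ p ∈ s, gp p a b c) (11 / 16 * ∏ p ∈ s, fp p)
      (4 * ∏ p ∈ s, p) := by
  classical
  induction s using Finset.induction_on with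
  | empty => simpa using PM_two
  | insert q s hq ih =>
    have hs' : ∀ p ∈ s, p.Prime ∧ p ≠ 2 := fun p hp => hs p (Finset.mem_insert_of_mem hp)
    have hqp := hs q (Finset.mem_insert_self q s)
    have hcop : Nat.Coprime (4 * ∏ p ∈ s, p) q := by
      apply Nat.Coprime.mul_left
      · have : Nat.Coprime (2 ^ 2) q := by
          apply Nat.Coprime.pow_left
          exact (Nat.coprime_primes Nat.prime_two hqp.1).2 (Ne.symm hqp.2)
        simpa using this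
      · apply Nat.Coprime.prod_left
        intro p hp
        apply (Nat.coprime_primes (hs' p hp).1 hqp.1).2
        intro h
        rw [h] at hp
        exact hq hp
    have h := PM_mul (ih hs') (PM_prime q hqp.1) hcop
    have e1 : (fun a b c : ℕ => (g2z a b c : ℝ) * ∏ p ∈ insert q s, gp p a b c) =
        (fun a b c : ℕ => ((g2z a b c : ℝ) * ∏ p ∈ s, gp p a b c) * gp q a b c) := by
      funext a b c
      rw [Finset.prod_insert hq]
      ring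
    have e2 : (11 / 16 : ℝ) * ∏ p ∈ insert q s, fp p = (11 / 16 * ∏ p ∈ s, fp p) * fp q := by
      rw [Finset.prod_insert hq]
      ring
    have e3 : 4 * ∏ p ∈ insert q s, p = (4 * ∏ p ∈ s, p) * q := by
      rw [Finset.prod_insert hq]
      ring
    rw [e1, e2, e3]
    exact h

lemma cast4_even (n : ℕ) : ((n : ZMod 4) = 0 ∨ (n : ZMod 4) = 2) ↔ 2 ∣ n := by
  have h0 : ((n : ZMod 4) = 0) ↔ n % 4 = 0 := by
    rw [ZMod.natCast_eq_zero_iff]
    omega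
  have h2 : ((n : ZMod 4) = 2) ↔ n % 4 = 2 := by
    have : ((n : ZMod 4) = ((2 : ℕ) : ZMod 4)) ↔ n ≡ 2 [MOD 4] := ZMod.natCast_eq_natCast_iff n 2 4
    rw [Nat.ModEq] at this
    simpa using this
  rw [h0, h2]
  omega

lemma cast4_odd (n : ℕ) : ((n : ZMod 4) = 1 ∨ (n : ZMod 4) = 3) ↔ ¬ 2 ∣ n := by
  have h1 : ((n : ZMod 4) = 1) ↔ n % 4 = 1 := by
    have : ((n : ZMod 4) = ((1 : ℕ) : ZMod 4)) ↔ n ≡ 1 [MOD 4] := ZMod.natCast_eq_natCast_iff n 1 4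
    rw [Nat.ModEq] at this
    simpa using this
  have h3 : ((n : ZMod 4) = 3) ↔ n % 4 = 3 := by
    have : ((n : ZMod 4) = ((3 : ℕ) : ZMod 4)) ↔ n ≡ 3 [MOD 4] := ZMod.natCast_eq_natCast_iff n 3 4
    rw [Nat.ModEq] at this
    simpa using this
  rw [h1, h3]
  omega

lemma g2z_eq (a b c : ℕ) : g2z (a : ZMod 4) (b : ZMod 4) (c : ZMod 4) =
    if ¬ 2 ∣ b ∧ 2 ∣ a ∧ 2 ∣ c then (if 4 ∣ a ∧ 4 ∣ c then 0 else 2)
    else if (2 ∣ a ∧ 2 ∣ b) ∨ (2 ∣ b ∧ 2 ∣ c) ∨ (2 ∣ a ∧ 2 ∣ c) then 0 else 1 := by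
  unfold g2z
  have ha0 : ((a : ZMod 4) = 0) ↔ 4 ∣ a := ZMod.natCast_eq_zero_iff a 4
  have hc0 : ((c : ZMod 4) = 0) ↔ 4 ∣ c := ZMod.natCast_eq_zero_iff c 4
  simp only [cast4_even, cast4_odd]
  simp only [ha0, hc0]

/-- some prime larger than `z` divides two of the three numbers -/
def Bad (z a b c : ℕ) : Prop :=
  ∃ p, p.Prime ∧ z < p ∧ ((p ∣ a ∧ p ∣ b) ∨ (p ∣ b ∧ p ∣ c) ∨ (p ∣ a ∧ p ∣ c))

/-- the odd primes up to `z` -/
def oddPrimes (z : ℕ) : Finset ℕ := (Icc 3 z).filter Nat.Prime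

lemma mem_oddPrimes {z p : ℕ} : p ∈ oddPrimes z ↔ (3 ≤ p ∧ p ≤ z) ∧ p.Prime := by
  unfold oddPrimes
  rw [Finset.mem_filter, Finset.mem_Icc]

/-- the truncated weight -/
noncomputable def gz (z a b c : ℕ) : ℝ := (g2z a b c : ℝ) * ∏ p ∈ oddPrimes z, gp p a b c

lemma gp_nonneg (p a b c : ℕ) : 0 ≤ gp p a b c := by
  unfold gp; split_ifs <;> norm_num

lemma gp_le_one (p a b c : ℕ) : gp p a b c ≤ 1 := by
  unfold gp; split_ifs <;> norm_num

lemma gz_le_two (z a b c : ℕ) : gz z a b c ≤ 2 := by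
  unfold gz
  have h1 : (g2z a b c : ℝ) ≤ 2 := by
    have : g2z a b c ≤ 2 := by
      unfold g2z; split_ifs <;> norm_num
    exact_mod_cast this
  have h2 : ∏ p ∈ oddPrimes z, gp p a b c ≤ 1 :=
    Finset.prod_le_one (fun p _ => gp_nonneg p a b c) (fun p _ => gp_le_one p a b c)
  have h3 : 0 ≤ ∏ p ∈ oddPrimes z, gp p a b c := Finset.prod_nonneg (fun p _ => gp_nonneg p a b c)
  nlinarith

lemma gz_le_rho (z a b c : ℕ) (hbad : ¬ Bad z a b c) :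
    gz z a b c ≤ rho a b c := by
  classical
  by_cases hzero : gz z a b c = 0
  · rw [hzero]; exact Nat.cast_nonneg _
  unfold gz at hzero
  have hg2 : (g2z a b c : ℝ) ≠ 0 := left_ne_zero_of_mul hzero
  have hprod : ∏ p ∈ oddPrimes z, gp p a b c ≠ 0 := right_ne_zero_of_mul hzero
  have hodd : ∀ p, p.Prime → p ≠ 2 → ¬ ((p ∣ a ∧ p ∣ b) ∨ (p ∣ b ∧ p ∣ c) ∨ (p ∣ a ∧ p ∣ c)) := by
    intro p hp h2 hdiv
    by_cases hpz : p ≤ z
    · have hmem : p ∈ oddPrimes z := by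
        rw [mem_oddPrimes]
        have := hp.two_le
        exact ⟨⟨by omega, hpz⟩, hp⟩
      have h3 := Finset.prod_ne_zero_iff.1 hprod p hmem
      apply h3
      unfold gp
      rw [if_pos hdiv]
    · exact hbad ⟨p, hp, by omega, hdiv⟩
  have hprod1 : ∏ p ∈ oddPrimes z, gp p a b c = 1 := by
    apply Finset.prod_eq_one
    intro p hp
    rw [mem_oddPrimes] at hp
    unfold gp
    rw [if_neg]
    exact hodd p hp.2 (by omega)
  have hval : gz z a b c = (g2z a b c : ℝ) := by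
    unfold gz; rw [hprod1, mul_one]
  rw [hval]
  have hg2' : g2z a b c ≠ 0 := by exact_mod_cast hg2
  have hEq := g2z_eq a b c
  -- 2 divides neither (a and b) nor (b and c)
  have h2ab : ¬ (2 ∣ a ∧ 2 ∣ b) := by
    intro h
    apply hg2'
    rw [hEq, if_neg (by tauto), if_pos (Or.inl h)]
  have h2bc : ¬ (2 ∣ b ∧ 2 ∣ c) := by
    intro h
    apply hg2'
    rw [hEq, if_neg (by tauto), if_pos (Or.inr (Or.inl h))]
  have cba : Nat.Coprime b a := by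
    apply Nat.Coprime.symm
    apply Nat.coprime_of_dvd
    intro p hp hpa hpb
    by_cases h2 : p = 2
    · subst h2; exact h2ab ⟨hpa, hpb⟩
    · exact hodd p hp h2 (Or.inl ⟨hpa, hpb⟩)
  have cbc : Nat.Coprime b c := by
    apply Nat.coprime_of_dvd
    intro p hp hpb hpc
    by_cases h2 : p = 2
    · subst h2; exact h2bc ⟨hpb, hpc⟩
    · exact hodd p hp h2 (Or.inr (Or.inl ⟨hpb, hpc⟩))
  by_cases h2ac : 2 ∣ a ∧ 2 ∣ c
  · have h2b : ¬ 2 ∣ b := fun h => h2ab ⟨h2ac.1, h⟩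
    have h4 : ¬ (4 ∣ a ∧ 4 ∣ c) := by
      intro h
      apply hg2'
      rw [hEq, if_pos ⟨h2b, h2ac.1, h2ac.2⟩, if_pos h]
    have hg : g2z a b c = 2 := by
      rw [hEq, if_pos ⟨h2b, h2ac.1, h2ac.2⟩, if_neg h4]
    -- gcd a c = 2
    have hd2 : 2 ∣ Nat.gcd a c := Nat.dvd_gcd h2ac.1 h2ac.2
    obtain ⟨k, hk⟩ := hd2
    have hk1 : k = 1 := by
      by_contra hk1
      obtain ⟨p, hp, hpk⟩ := Nat.exists_prime_and_dvd hk1
      have hpg : p ∣ Nat.gcd a c := by rw [hk]; exact Dvd.dvd.mul_left hpk 2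
      by_cases h2 : p = 2
      · subst h2
        obtain ⟨l, hl⟩ := hpk
        have h4g : 4 ∣ Nat.gcd a c := ⟨l, by rw [hk, hl]; ring⟩
        exact h4 ⟨h4g.trans (Nat.gcd_dvd_left a c), h4g.trans (Nat.gcd_dvd_right a c)⟩
      · exact hodd p hp h2 (Or.inr (Or.inr ⟨hpg.trans (Nat.gcd_dvd_left a c),
          hpg.trans (Nat.gcd_dvd_right a c)⟩))
    have hgcd : Nat.gcd a c = 2 := by rw [hk, hk1]
    have : rho a b c = 2 := by
      unfold rho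
      rw [if_pos ⟨cba, cbc, by rw [hgcd]⟩, hgcd]
    rw [this, hg]
  · have hgcd : Nat.gcd a c = 1 := by
      apply Nat.coprime_of_dvd
      intro p hp hpa hpc
      by_cases h2 : p = 2
      · subst h2; exact h2ac ⟨hpa, hpc⟩
      · exact hodd p hp h2 (Or.inr (Or.inr ⟨hpa, hpc⟩))
    have hg : g2z a b c = 1 := by
      rw [hEq, if_neg (by tauto), if_neg (by tauto)]
    have : rho a b c = 1 := by
      unfold rho
      rw [if_pos ⟨cba, cbc, by rw [hgcd]; norm_num⟩, hgcd]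
    rw [this, hg]

open Classical in
/-- indicator of the bad event -/
noncomputable def ind (z a b c : ℕ) : ℝ := if Bad z a b c then 1 else 0

lemma gz_sub_le_rho (z a b c : ℕ) :
    gz z a b c - 2 * ind z a b c ≤ rho a b c := by
  unfold ind
  split_ifs with h
  · have := gz_le_two z a b c
    have h2 : (0 : ℝ) ≤ rho a b c := Nat.cast_nonneg _
    linarith
  · have := gz_le_rho z a b c h
    linarith

lemma one_var (Q A B : ℕ) [NeZero Q] (f : ZMod Q → ℝ) (hf : ∀ r, 0 ≤ f r) (l : ℝ)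
    (hl : l ≤ Real.log ((B : ℝ) / (A + Q))) :
    (l / Q) * ∑ r, f r ≤ ∑ a ∈ Ioc A B, f (a : ZMod Q) * (1 / (a : ℝ)) := by
  classical
  have hQ : (0 : ℝ) < Q := by
    have : 0 < Q := Nat.pos_of_ne_zero (NeZero.ne Q)
    exact_mod_cast this
  have h1 : ∑ a ∈ Ioc A B, f (a : ZMod Q) * (1 / (a : ℝ)) =
      ∑ r : ZMod Q, ∑ a ∈ (Ioc A B).filter (fun a => ((a : ℕ) : ZMod Q) = r),
        f (a : ZMod Q) * (1 / (a : ℝ)) :=
    (Finset.sum_fiberwise (Ioc A B) (fun a => ((a : ℕ) : ZMod Q)) _).symm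
  rw [h1, Finset.mul_sum]
  apply Finset.sum_le_sum
  intro r _
  have h2 : ∑ a ∈ (Ioc A B).filter (fun a => ((a : ℕ) : ZMod Q) = r),
        f (a : ZMod Q) * (1 / (a : ℝ)) =
      f r * ∑ a ∈ (Ioc A B).filter (fun a => ((a : ℕ) : ZMod Q) = r), (1 / (a : ℝ)) := by
    rw [Finset.mul_sum]
    apply Finset.sum_congr rfl
    intro a ha
    rw [Finset.mem_filter] at ha
    rw [ha.2]
  rw [h2, mul_comm]
  apply mul_le_mul_of_nonneg_left _ (hf r)
  refine le_trans ?_ (W_ge Q A B r)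
  gcongr

lemma box_ge {g : ℕ → ℕ → ℕ → ℝ} {M : ℝ} {Q : ℕ} (h : PM g M Q) (A1 B1 A2 B2 A3 B3 : ℕ) (l : ℝ)
    (hl0 : 0 ≤ l) (h1 : l ≤ Real.log ((B1 : ℝ) / (A1 + Q))) (h2 : l ≤ Real.log ((B2 : ℝ) / (A2 + Q)))
    (h3 : l ≤ Real.log ((B3 : ℝ) / (A3 + Q))) :
    M * l ^ 3 ≤ ∑ a ∈ Ioc A1 B1, ∑ b ∈ Ioc A2 B2, ∑ c ∈ Ioc A3 B3,
      g a b c * (1 / (a : ℝ)) * (1 / (b : ℝ)) * (1 / (c : ℝ)) := by
  obtain ⟨hQ, F, hF0, hF, hFs⟩ := h
  have hQ' : (0 : ℝ) < Q := by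
    have : 0 < Q := Nat.pos_of_ne_zero hQ.out
    exact_mod_cast this
  have hlQ : 0 ≤ l / Q := by positivity
  have step3 : ∀ a b : ℕ, (l / Q) * ∑ t, F a b t ≤ ∑ c ∈ Ioc A3 B3, F a b c * (1 / (c : ℝ)) :=
    fun a b => one_var Q A3 B3 (fun t => F a b t) (fun t => hF0 _ _ _) l h3
  have step2 : ∀ a : ℕ, (l / Q) * ∑ s, ((l / Q) * ∑ t, F a s t) ≤
      ∑ b ∈ Ioc A2 B2, ((l / Q) * ∑ t, F a b t) * (1 / (b : ℝ)) :=
    fun a => one_var Q A2 B2 (fun s => (l / Q) * ∑ t, F a s t)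
      (fun s => mul_nonneg hlQ (Finset.sum_nonneg (fun t _ => hF0 _ _ _))) l h2
  have step1 : (l / Q) * ∑ r, ((l / Q) * ∑ s, ((l / Q) * ∑ t, F r s t)) ≤
      ∑ a ∈ Ioc A1 B1, ((l / Q) * ∑ s, ((l / Q) * ∑ t, F a s t)) * (1 / (a : ℝ)) :=
    one_var Q A1 B1 (fun r => (l / Q) * ∑ s, ((l / Q) * ∑ t, F r s t))
      (fun r => mul_nonneg hlQ (Finset.sum_nonneg (fun s _ => mul_nonneg hlQ
        (Finset.sum_nonneg (fun t _ => hF0 _ _ _))))) l h1
  have e0 : M * l ^ 3 = (l / Q) * ∑ r, ((l / Q) * ∑ s, ((l / Q) * ∑ t, F r s t)) := by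
    simp only [← Finset.mul_sum]
    rw [hFs]
    field_simp
  rw [e0]
  refine step1.trans ?_
  apply Finset.sum_le_sum
  intro a _
  have hstep2a : ((l / Q) * ∑ s, ((l / Q) * ∑ t, F a s t)) * (1 / (a : ℝ)) ≤
      (∑ b ∈ Ioc A2 B2, ((l / Q) * ∑ t, F a b t) * (1 / (b : ℝ))) * (1 / (a : ℝ)) :=
    mul_le_mul_of_nonneg_right (step2 a) (by positivity)
  refine hstep2a.trans ?_
  rw [Finset.sum_mul]
  apply Finset.sum_le_sum
  intro b _
  have hstep3 : ((l / Q) * ∑ t, F a b t) * (1 / (b : ℝ)) * (1 / (a : ℝ)) ≤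
      (∑ c ∈ Ioc A3 B3, F a b c * (1 / (c : ℝ))) * (1 / (b : ℝ)) * (1 / (a : ℝ)) := by
    apply mul_le_mul_of_nonneg_right _ (by positivity)
    exact mul_le_mul_of_nonneg_right (step3 a b) (by positivity)
  refine hstep3.trans (le_of_eq ?_)
  rw [Finset.sum_mul, Finset.sum_mul]
  apply Finset.sum_congr rfl
  intro c _
  rw [hF]
  ring

end MP33509c
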