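import Mathlib
import Pool.Agent.H.MP_33509c_nt.Weight

namespace MP33509c
open Finset

/-- harmonic sum -/
noncomputable def Hs (T : ℕ) : ℝ := ∑ a ∈ Icc 1 T, 1 / (a : ℝ)

lemma Hs_nonneg (T : ℕ) : 0 ≤ Hs T := Finset.sum_nonneg (fun _ _ => by positivity)

lemma sum_dvd_le (m T : ℕ) (hm : 0 < m) :
    ∑ a ∈ Icc 1 T, (if m ∣ a then 1 / (a : ℝ) else 0) ≤ Hs T / m := by
  classical
  have hm' : (0 : ℝ) < m := by exact_mod_cast hm
  rw [← Finset.sum_filter]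
  have h1 : ∑ a ∈ (Icc 1 T).filter (fun a => m ∣ a), 1 / (a : ℝ) ≤
      ∑ a ∈ (Icc 1 T).image (fun k => m * k), 1 / (a : ℝ) := by
    apply Finset.sum_le_sum_of_subset_of_nonneg
    · intro a ha
      rw [Finset.mem_filter, Finset.mem_Icc] at ha
      obtain ⟨⟨ha1, ha2⟩, k, rfl⟩ := ha
      rw [Finset.mem_image]
      refine ⟨k, ?_, rfl⟩
      rw [Finset.mem_Icc]
      constructor
      · rcases Nat.eq_zero_or_pos k with h | h
        · subst h; omega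
        · exact h
      · exact le_trans (Nat.le_mul_of_pos_left k hm) ha2
    · intro a _ _
      positivity
  refine h1.trans (le_of_eq ?_)
  rw [Finset.sum_image]
  · unfold Hs
    rw [Finset.sum_div]
    apply Finset.sum_congr rfl
    intro k _
    push_cast
    rw [one_div, one_div, mul_inv]
    field_simp
  · intro i _ j _ hij
    exact Nat.eq_of_mul_eq_mul_left hm hij

lemma ind_le (z T a b c : ℕ) (ha : a ∈ Icc 1 T) (hb : b ∈ Icc 1 T) :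
    ind z a b c * (1 / (a : ℝ)) * (1 / (b : ℝ)) * (1 / (c : ℝ)) ≤
      ∑ m ∈ Ioc z T, ((if m ∣ a then 1 / (a : ℝ) else 0) * (if m ∣ b then 1 / (b : ℝ) else 0) * (1 / (c : ℝ))
        + (1 / (a : ℝ)) * (if m ∣ b then 1 / (b : ℝ) else 0) * (if m ∣ c then 1 / (c : ℝ) else 0)
        + (if m ∣ a then 1 / (a : ℝ) else 0) * (1 / (b : ℝ)) * (if m ∣ c then 1 / (c : ℝ) else 0)) := by
  classical
  rw [Finset.mem_Icc] at ha hb
  have hnn : ∀ m ∈ Ioc z T, 0 ≤ ((if m ∣ a then 1 / (a : ℝ) else 0) * (if m ∣ b then 1 / (b : ℝ) else 0) * (1 / (c : ℝ))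
        + (1 / (a : ℝ)) * (if m ∣ b then 1 / (b : ℝ) else 0) * (if m ∣ c then 1 / (c : ℝ) else 0)
        + (if m ∣ a then 1 / (a : ℝ) else 0) * (1 / (b : ℝ)) * (if m ∣ c then 1 / (c : ℝ) else 0)) := by
    intro m _
    have e1 : (0:ℝ) ≤ if m ∣ a then 1 / (a : ℝ) else 0 := by split_ifs <;> positivity
    have e2 : (0:ℝ) ≤ if m ∣ b then 1 / (b : ℝ) else 0 := by split_ifs <;> positivity
    have e3 : (0:ℝ) ≤ if m ∣ c then 1 / (c : ℝ) else 0 := by split_ifs <;> positivity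
    positivity
  unfold ind
  split_ifs with h
  · obtain ⟨p, hp, hzp, hdiv⟩ := h
    have hpT : p ∈ Ioc z T := by
      rw [Finset.mem_Ioc]
      refine ⟨hzp, ?_⟩
      rcases hdiv with h | h | h
      · exact (Nat.le_of_dvd (by omega) h.1).trans ha.2
      · exact (Nat.le_of_dvd (by omega) h.1).trans hb.2
      · exact (Nat.le_of_dvd (by omega) h.1).trans ha.2
    refine le_trans ?_ (Finset.single_le_sum hnn hpT)
    have e1 : (0:ℝ) ≤ if p ∣ a then 1 / (a : ℝ) else 0 := by split_ifs <;> positivity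
    have e2 : (0:ℝ) ≤ if p ∣ b then 1 / (b : ℝ) else 0 := by split_ifs <;> positivity
    have e3 : (0:ℝ) ≤ if p ∣ c then 1 / (c : ℝ) else 0 := by split_ifs <;> positivity
    have t1 : (0:ℝ) ≤ (if p ∣ a then 1 / (a : ℝ) else 0) * (if p ∣ b then 1 / (b : ℝ) else 0) * (1 / (c : ℝ)) := by
      positivity
    have t2 : (0:ℝ) ≤ (1 / (a : ℝ)) * (if p ∣ b then 1 / (b : ℝ) else 0) * (if p ∣ c then 1 / (c : ℝ) else 0) := by
      positivity
    have t3 : (0:ℝ) ≤ (if p ∣ a then 1 / (a : ℝ) else 0) * (1 / (b : ℝ)) * (if p ∣ c then 1 / (c : ℝ) else 0) := by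
      positivity
    rcases hdiv with h | h | h
    · have : (if p ∣ a then 1 / (a : ℝ) else 0) * (if p ∣ b then 1 / (b : ℝ) else 0) * (1 / (c : ℝ)) =
          1 / (a : ℝ) * (1 / (b : ℝ)) * (1 / (c : ℝ)) := by rw [if_pos h.1, if_pos h.2]
      linarith
    · have : (1 / (a : ℝ)) * (if p ∣ b then 1 / (b : ℝ) else 0) * (if p ∣ c then 1 / (c : ℝ) else 0) =
          1 / (a : ℝ) * (1 / (b : ℝ)) * (1 / (c : ℝ)) := by rw [if_pos h.1, if_pos h.2]
      linarith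
    · have : (if p ∣ a then 1 / (a : ℝ) else 0) * (1 / (b : ℝ)) * (if p ∣ c then 1 / (c : ℝ) else 0) =
          1 / (a : ℝ) * (1 / (b : ℝ)) * (1 / (c : ℝ)) := by rw [if_pos h.1, if_pos h.2]
      linarith
  · simp only [zero_mul]
    exact Finset.sum_nonneg hnn

lemma sum_ind_le (z T : ℕ) (hz : 0 < z) :
    ∑ a ∈ Icc 1 T, ∑ b ∈ Icc 1 T, ∑ c ∈ Icc 1 T,
      ind z a b c * (1 / (a : ℝ)) * (1 / (b : ℝ)) * (1 / (c : ℝ)) ≤ 3 / z * Hs T ^ 3 := by
  classical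
  have hz' : (0 : ℝ) < z := by exact_mod_cast hz
  set u : ℕ → ℝ := fun m => ∑ a ∈ Icc 1 T, (if m ∣ a then 1 / (a : ℝ) else 0) with hu
  have hu0 : ∀ m, 0 ≤ u m := fun m => Finset.sum_nonneg (fun a _ => by split_ifs <;> positivity)
  have h1 : ∑ a ∈ Icc 1 T, ∑ b ∈ Icc 1 T, ∑ c ∈ Icc 1 T,
      ind z a b c * (1 / (a : ℝ)) * (1 / (b : ℝ)) * (1 / (c : ℝ)) ≤
      ∑ a ∈ Icc 1 T, ∑ b ∈ Icc 1 T, ∑ c ∈ Icc 1 T, ∑ m ∈ Ioc z T,
        ((if m ∣ a then 1 / (a : ℝ) else 0) * (if m ∣ b then 1 / (b : ℝ) else 0) * (1 / (c : ℝ))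
        + (1 / (a : ℝ)) * (if m ∣ b then 1 / (b : ℝ) else 0) * (if m ∣ c then 1 / (c : ℝ) else 0)
        + (if m ∣ a then 1 / (a : ℝ) else 0) * (1 / (b : ℝ)) * (if m ∣ c then 1 / (c : ℝ) else 0)) := by
    refine Finset.sum_le_sum fun a ha => Finset.sum_le_sum fun b hb => Finset.sum_le_sum fun c _ => ?_
    exact ind_le z T a b c ha hb
  have h2 : ∑ a ∈ Icc 1 T, ∑ b ∈ Icc 1 T, ∑ c ∈ Icc 1 T, ∑ m ∈ Ioc z T,
        ((if m ∣ a then 1 / (a : ℝ) else 0) * (if m ∣ b then 1 / (b : ℝ) else 0) * (1 / (c : ℝ))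
        + (1 / (a : ℝ)) * (if m ∣ b then 1 / (b : ℝ) else 0) * (if m ∣ c then 1 / (c : ℝ) else 0)
        + (if m ∣ a then 1 / (a : ℝ) else 0) * (1 / (b : ℝ)) * (if m ∣ c then 1 / (c : ℝ) else 0)) =
      ∑ m ∈ Ioc z T, 3 * (u m ^ 2 * Hs T) := by
    have e1 : ∀ a b : ℕ, ∑ c ∈ Icc 1 T, ∑ m ∈ Ioc z T,
        ((if m ∣ a then 1 / (a : ℝ) else 0) * (if m ∣ b then 1 / (b : ℝ) else 0) * (1 / (c : ℝ))
        + (1 / (a : ℝ)) * (if m ∣ b then 1 / (b : ℝ) else 0) * (if m ∣ c then 1 / (c : ℝ) else 0)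
        + (if m ∣ a then 1 / (a : ℝ) else 0) * (1 / (b : ℝ)) * (if m ∣ c then 1 / (c : ℝ) else 0)) =
        ∑ m ∈ Ioc z T, ((if m ∣ a then 1 / (a : ℝ) else 0) * (if m ∣ b then 1 / (b : ℝ) else 0) * Hs T
        + (1 / (a : ℝ)) * (if m ∣ b then 1 / (b : ℝ) else 0) * u m
        + (if m ∣ a then 1 / (a : ℝ) else 0) * (1 / (b : ℝ)) * u m) := by
      intro a b
      rw [Finset.sum_comm]
      apply Finset.sum_congr rfl
      intro m _
      rw [Finset.sum_add_distrib, Finset.sum_add_distrib, ← Finset.mul_sum, ← Finset.mul_sum,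
        ← Finset.mul_sum]
      rfl
    have e2 : ∀ a : ℕ, ∑ b ∈ Icc 1 T, ∑ m ∈ Ioc z T,
        ((if m ∣ a then 1 / (a : ℝ) else 0) * (if m ∣ b then 1 / (b : ℝ) else 0) * Hs T
        + (1 / (a : ℝ)) * (if m ∣ b then 1 / (b : ℝ) else 0) * u m
        + (if m ∣ a then 1 / (a : ℝ) else 0) * (1 / (b : ℝ)) * u m) =
        ∑ m ∈ Ioc z T, ((if m ∣ a then 1 / (a : ℝ) else 0) * u m * Hs T
        + (1 / (a : ℝ)) * u m * u m
        + (if m ∣ a then 1 / (a : ℝ) else 0) * Hs T * u m) := by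
      intro a
      rw [Finset.sum_comm]
      apply Finset.sum_congr rfl
      intro m _
      rw [Finset.sum_add_distrib, Finset.sum_add_distrib, ← Finset.sum_mul, ← Finset.sum_mul,
        ← Finset.sum_mul, ← Finset.mul_sum, ← Finset.mul_sum, ← Finset.mul_sum]
      rfl
    have e3 : ∑ a ∈ Icc 1 T, ∑ m ∈ Ioc z T, ((if m ∣ a then 1 / (a : ℝ) else 0) * u m * Hs T
        + (1 / (a : ℝ)) * u m * u m
        + (if m ∣ a then 1 / (a : ℝ) else 0) * Hs T * u m) =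
        ∑ m ∈ Ioc z T, 3 * (u m ^ 2 * Hs T) := by
      rw [Finset.sum_comm]
      apply Finset.sum_congr rfl
      intro m _
      rw [Finset.sum_add_distrib, Finset.sum_add_distrib, ← Finset.sum_mul, ← Finset.sum_mul,
        ← Finset.sum_mul, ← Finset.sum_mul, ← Finset.sum_mul, ← Finset.sum_mul]
      change u m * u m * Hs T + Hs T * u m * u m + u m * Hs T * u m = _
      ring
    rw [← e3]
    apply Finset.sum_congr rfl
    intro a _
    rw [← e2]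
    apply Finset.sum_congr rfl
    intro b _
    rw [← e1]
  rw [h2] at h1
  refine h1.trans ?_
  have h3 : ∀ m ∈ Ioc z T, 3 * (u m ^ 2 * Hs T) ≤ 3 * Hs T ^ 3 * ((m : ℝ) ^ 2)⁻¹ := by
    intro m hm
    rw [Finset.mem_Ioc] at hm
    have hm0 : 0 < m := by omega
    have hm' : (0 : ℝ) < m := by exact_mod_cast hm0
    have h4 : u m ≤ Hs T / m := sum_dvd_le m T hm0
    have h5 : u m ^ 2 ≤ (Hs T / m) ^ 2 := pow_le_pow_left₀ (hu0 m) h4 2
    have h6 : u m ^ 2 * Hs T ≤ (Hs T / m) ^ 2 * Hs T := mul_le_mul_of_nonneg_right h5 (Hs_nonneg T)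
    have h7 : 3 * Hs T ^ 3 * ((m : ℝ) ^ 2)⁻¹ = 3 * ((Hs T / m) ^ 2 * Hs T) := by
      field_simp
    rw [h7]
    linarith
  refine (Finset.sum_le_sum h3).trans ?_
  rw [← Finset.mul_sum]
  have h8 : ∑ m ∈ Ioc z T, ((m : ℝ) ^ 2)⁻¹ ≤ (z : ℝ)⁻¹ := by
    by_cases hzT : z ≤ T
    · have := sum_Ioc_inv_sq_le_sub (α := ℝ) (k := z) (n := T) hz.ne' hzT
      have h9 : (0 : ℝ) ≤ (T : ℝ)⁻¹ := by positivity
      linarith
    · rw [Finset.Ioc_eq_empty (by omega)]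
      simp
  have h10 : (0 : ℝ) ≤ 3 * Hs T ^ 3 := by have := Hs_nonneg T; positivity
  calc 3 * Hs T ^ 3 * ∑ m ∈ Ioc z T, ((m : ℝ) ^ 2)⁻¹ ≤ 3 * Hs T ^ 3 * (z : ℝ)⁻¹ :=
        mul_le_mul_of_nonneg_left h8 h10
    _ = 3 / z * Hs T ^ 3 := by ring

lemma Hs_le (T : ℕ) : Hs T ≤ 1 + Real.log T := by
  have h := harmonic_le_one_add_log T
  have : (harmonic T : ℝ) = Hs T := by
    rw [harmonic_eq_sum_Icc]
    unfold Hs
    push_cast
    apply Finset.sum_congr rfl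
    intro a _
    rw [one_div]
  rw [← this]
  exact h

end MP33509c
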