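import Mathlib
import Pool.Agent.H.MP_33509c_nt.Err

namespace MP33509c
open Finset

/-- the divisibility condition -/
def Div3 (n : ℕ) (t : ℕ × ℕ × ℕ) : Prop := t.1 ∣ n ∧ t.2.1 ∣ n + 1 ∧ t.2.2 ∣ n + 2

instance (n : ℕ) (t : ℕ × ℕ × ℕ) : Decidable (Div3 n t) := by unfold Div3; infer_instance

/-- the triple divisor product -/
def ddd (n : ℕ) : ℕ := n.divisors.card * (n + 1).divisors.card * (n + 2).divisors.card

lemma card_filter_le_ddd (n : ℕ) (U : Finset ℕ) (R : Finset (ℕ × ℕ × ℕ)) (hR : R ⊆ U ×ˢ U ×ˢ U)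
    (hU : ∀ a ∈ U, a * a < n) : 8 * (R.filter (Div3 n)).card ≤ ddd n := by
  classical
  have h1 := two_mul_card_le n U hU
  have h2 := two_mul_card_le (n + 1) U (fun a ha => lt_trans (hU a ha) (Nat.lt_succ_self n))
  have h3 := two_mul_card_le (n + 2) U (fun a ha => lt_trans (hU a ha) (by omega))
  have h4 : R.filter (Div3 n) ⊆ (U.filter (fun a => a ∣ n)) ×ˢ (U.filter (fun a => a ∣ n + 1)) ×ˢ
      (U.filter (fun a => a ∣ n + 2)) := by
    intro t ht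
    rw [Finset.mem_filter] at ht
    have := hR ht.1
    simp only [Finset.mem_product] at this
    simp only [Finset.mem_product, Finset.mem_filter]
    exact ⟨⟨this.1, ht.2.1⟩, ⟨this.2.1, ht.2.2.1⟩, ⟨this.2.2, ht.2.2.2⟩⟩
  have h5 := Finset.card_le_card h4
  rw [Finset.card_product, Finset.card_product] at h5
  unfold ddd
  calc 8 * (R.filter (Div3 n)).card
      ≤ 8 * ((U.filter (fun a => a ∣ n)).card * ((U.filter (fun a => a ∣ n + 1)).card *
      (U.filter (fun a => a ∣ n + 2)).card)) := Nat.mul_le_mul_left 8 h5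
    _ = (2 * (U.filter (fun a => a ∣ n)).card) * (2 * (U.filter (fun a => a ∣ n + 1)).card) *
      (2 * (U.filter (fun a => a ∣ n + 2)).card) := by ring
    _ ≤ _ := Nat.mul_le_mul (Nat.mul_le_mul h1 h2) h3

/-- weight `1/(abc)` -/
noncomputable def wt (t : ℕ × ℕ × ℕ) : ℝ := (1 / (t.1 : ℝ)) * (1 / (t.2.1 : ℝ)) * (1 / (t.2.2 : ℝ))

lemma sum_ge (Y X : ℕ) (U : Finset ℕ) (R : Finset (ℕ × ℕ × ℕ))
    (hR : R ⊆ U ×ˢ U ×ˢ U) (hU : ∀ a ∈ U, 0 < a ∧ a * a ≤ Y) :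
    8 * (((X : ℝ) - Y) * ∑ t ∈ R, (rho t.1 t.2.1 t.2.2 : ℝ) * wt t - R.card) ≤
      ∑ n ∈ Icc 1 X, (ddd n : ℝ) := by
  classical
  have h1 : ∑ n ∈ Ioc Y X, (ddd n : ℝ) ≤ ∑ n ∈ Icc 1 X, (ddd n : ℝ) := by
    apply Finset.sum_le_sum_of_subset_of_nonneg
    · intro n hn
      rw [Finset.mem_Ioc] at hn
      rw [Finset.mem_Icc]
      omega
    · intro _ _ _
      exact Nat.cast_nonneg _
  refine le_trans ?_ h1
  have h2 : ∑ n ∈ Ioc Y X, ((8 * (R.filter (Div3 n)).card : ℕ) : ℝ) ≤ ∑ n ∈ Ioc Y X, (ddd n : ℝ) := by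
    apply Finset.sum_le_sum
    intro n hn
    rw [Finset.mem_Ioc] at hn
    exact_mod_cast card_filter_le_ddd n U R hR (fun a ha => lt_of_le_of_lt (hU a ha).2 hn.1)
  refine le_trans ?_ h2
  have h3 : ∑ n ∈ Ioc Y X, ((8 * (R.filter (Div3 n)).card : ℕ) : ℝ) =
      8 * ∑ t ∈ R, (((Ioc Y X).filter (fun n => Div3 n t)).card : ℝ) := by
    have h4 : ∑ n ∈ Ioc Y X, (R.filter (Div3 n)).card = ∑ t ∈ R, ((Ioc Y X).filter (fun n => Div3 n t)).card := by
      simp only [Finset.card_filter]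
      rw [Finset.sum_comm]
    have h5 : ∑ n ∈ Ioc Y X, ((8 * (R.filter (Div3 n)).card : ℕ) : ℝ) =
        8 * ((∑ n ∈ Ioc Y X, (R.filter (Div3 n)).card : ℕ) : ℝ) := by
      push_cast
      rw [Finset.mul_sum]
    rw [h5, h4]
    push_cast
    rfl
  rw [h3]
  apply mul_le_mul_of_nonneg_left _ (by norm_num)
  rw [Finset.mul_sum, Finset.card_eq_sum_ones]
  push_cast
  rw [← Finset.sum_sub_distrib]
  apply Finset.sum_le_sum
  intro t ht
  have htU := hR ht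
  simp only [Finset.mem_product] at htU
  have := count_ge t.1 t.2.1 t.2.2 Y X (hU _ htU.1).1 (hU _ htU.2.1).1 (hU _ htU.2.2).1
  refine le_trans (le_of_eq ?_) this
  unfold wt
  have e1 : (t.1 : ℝ) ≠ 0 := by have := (hU _ htU.1).1; positivity
  have e2 : (t.2.1 : ℝ) ≠ 0 := by have := (hU _ htU.2.1).1; positivity
  have e3 : (t.2.2 : ℝ) ≠ 0 := by have := (hU _ htU.2.2).1; positivity
  field_simp

/-- boxes -/
def box (A : ℕ → ℕ) (t : ℕ × ℕ × ℕ) : Finset (ℕ × ℕ × ℕ) :=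
  Ioc (A t.1) (A (t.1 + 1)) ×ˢ Ioc (A t.2.1) (A (t.2.1 + 1)) ×ˢ Ioc (A t.2.2) (A (t.2.2 + 1))

lemma Ioc_idx_unique (A : ℕ → ℕ) (hA : Monotone A) (i j a : ℕ) (hi : a ∈ Ioc (A i) (A (i + 1)))
    (hj : a ∈ Ioc (A j) (A (j + 1))) : i = j := by
  rw [Finset.mem_Ioc] at hi hj
  rcases lt_trichotomy i j with h | h | h
  · have : A (i + 1) ≤ A j := hA h
    omega
  · exact h
  · have : A (j + 1) ≤ A i := hA h
    omega

lemma box_disj (A : ℕ → ℕ) (hA : Monotone A) (Bx : Finset (ℕ × ℕ × ℕ)) :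
    (Bx : Set (ℕ × ℕ × ℕ)).PairwiseDisjoint (box A) := by
  intro s _ t _ hst
  rw [Function.onFun, Finset.disjoint_left]
  intro x hx hy
  apply hst
  unfold box at hx hy
  simp only [Finset.mem_product] at hx hy
  have h1 := Ioc_idx_unique A hA _ _ _ hx.1 hy.1
  have h2 := Ioc_idx_unique A hA _ _ _ hx.2.1 hy.2.1
  have h3 := Ioc_idx_unique A hA _ _ _ hx.2.2 hy.2.2
  exact Prod.ext h1 (Prod.ext h2 h3)

lemma main_ineq (z m Y X Q : ℕ) (Mz l : ℝ) (hz : 0 < z) (hPM : PM (gz z) Mz Q) (A : ℕ → ℕ)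
    (hA : Monotone A) (hY : A m * A m ≤ Y) (hYX : Y ≤ X)
    (Bx : Finset (ℕ × ℕ × ℕ)) (hBx : ∀ t ∈ Bx, t.1 < m ∧ t.2.1 < m ∧ t.2.2 < m)
    (hl0 : 0 ≤ l) (hl : ∀ i < m, l ≤ Real.log ((A (i + 1) : ℝ) / (A i + Q))) :
    8 * (((X : ℝ) - Y) * (Bx.card * (Mz * l ^ 3) - 6 / z * Hs (A m) ^ 3) -
      ∑ t ∈ Bx, (A (t.1 + 1) : ℝ) * A (t.2.1 + 1) * A (t.2.2 + 1)) ≤
      ∑ n ∈ Icc 1 X, (ddd n : ℝ) := by
  classical
  set R := Bx.biUnion (box A) with hRdef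
  have hsub : ∀ t ∈ Bx, box A t ⊆ (Icc 1 (A m)) ×ˢ (Icc 1 (A m)) ×ˢ (Icc 1 (A m)) := by
    intro t ht x hx
    unfold box at hx
    obtain ⟨h1, h2, h3⟩ := hBx t ht
    have m1 : A (t.1 + 1) ≤ A m := hA h1
    have m2 : A (t.2.1 + 1) ≤ A m := hA h2
    have m3 : A (t.2.2 + 1) ≤ A m := hA h3
    simp only [Finset.mem_product, Finset.mem_Ioc] at hx
    simp only [Finset.mem_product, Finset.mem_Icc]
    omega
  have hR : R ⊆ (Icc 1 (A m)) ×ˢ (Icc 1 (A m)) ×ˢ (Icc 1 (A m)) := by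
    rw [hRdef, Finset.biUnion_subset]
    exact hsub
  have h1 := sum_ge Y X (Icc 1 (A m)) R hR (by
    intro a ha
    rw [Finset.mem_Icc] at ha
    refine ⟨by omega, le_trans (Nat.mul_le_mul ha.2 ha.2) hY⟩)
  refine le_trans ?_ h1
  apply mul_le_mul_of_nonneg_left _ (by norm_num)
  have hwt : ∀ t, 0 ≤ wt t := by intro t; unfold wt; positivity
  -- lower bound for the weighted sum
  have h2 : ∑ t ∈ R, (rho t.1 t.2.1 t.2.2 : ℝ) * wt t ≥
      Bx.card * (Mz * l ^ 3) - 6 / z * Hs (A m) ^ 3 := by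
    have h3 : ∑ t ∈ R, (gz z t.1 t.2.1 t.2.2 - 2 * ind z t.1 t.2.1 t.2.2) * wt t ≤
        ∑ t ∈ R, (rho t.1 t.2.1 t.2.2 : ℝ) * wt t := by
      apply Finset.sum_le_sum
      intro t _
      exact mul_le_mul_of_nonneg_right (gz_sub_le_rho z _ _ _) (hwt t)
    have h4 : ∑ t ∈ R, (gz z t.1 t.2.1 t.2.2 - 2 * ind z t.1 t.2.1 t.2.2) * wt t =
        ∑ t ∈ R, gz z t.1 t.2.1 t.2.2 * wt t - 2 * ∑ t ∈ R, ind z t.1 t.2.1 t.2.2 * wt t := by
      rw [Finset.mul_sum, ← Finset.sum_sub_distrib]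
      apply Finset.sum_congr rfl
      intro t _
      ring
    have h5 : ∑ t ∈ R, gz z t.1 t.2.1 t.2.2 * wt t ≥ Bx.card * (Mz * l ^ 3) := by
      rw [hRdef, Finset.sum_biUnion (box_disj A hA Bx), ← nsmul_eq_mul, ← Finset.sum_const]
      apply Finset.sum_le_sum
      intro t ht
      obtain ⟨i1, i2, i3⟩ := hBx t ht
      have h6 := box_ge hPM (A t.1) (A (t.1 + 1)) (A t.2.1) (A (t.2.1 + 1)) (A t.2.2) (A (t.2.2 + 1)) l
        hl0 (hl _ i1) (hl _ i2) (hl _ i3)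
      refine h6.trans (le_of_eq ?_)
      unfold box
      rw [Finset.sum_product]
      apply Finset.sum_congr rfl
      intro a _
      rw [Finset.sum_product]
      apply Finset.sum_congr rfl
      intro b _
      apply Finset.sum_congr rfl
      intro c _
      unfold wt
      ring
    have h7 : ∑ t ∈ R, ind z t.1 t.2.1 t.2.2 * wt t ≤ 3 / z * Hs (A m) ^ 3 := by
      have h8 : ∑ t ∈ R, ind z t.1 t.2.1 t.2.2 * wt t ≤
          ∑ t ∈ (Icc 1 (A m)) ×ˢ (Icc 1 (A m)) ×ˢ (Icc 1 (A m)), ind z t.1 t.2.1 t.2.2 * wt t := by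
        apply Finset.sum_le_sum_of_subset_of_nonneg hR
        intro t _ _
        apply mul_nonneg _ (hwt t)
        unfold ind
        split_ifs <;> norm_num
      refine h8.trans ?_
      have h9 := sum_ind_le z (A m) hz
      refine le_trans (le_of_eq ?_) h9
      rw [Finset.sum_product]
      apply Finset.sum_congr rfl
      intro a _
      rw [Finset.sum_product]
      apply Finset.sum_congr rfl
      intro b _
      apply Finset.sum_congr rfl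
      intro c _
      unfold wt
      ring
    have h10 : 6 / (z : ℝ) * Hs (A m) ^ 3 = 2 * (3 / z * Hs (A m) ^ 3) := by ring
    rw [h10]
    linarith
  have h11 : (R.card : ℝ) ≤ ∑ t ∈ Bx, (A (t.1 + 1) : ℝ) * A (t.2.1 + 1) * A (t.2.2 + 1) := by
    have h12 : R.card ≤ ∑ t ∈ Bx, A (t.1 + 1) * A (t.2.1 + 1) * A (t.2.2 + 1) := by
      refine le_trans (Finset.card_biUnion_le) ?_
      apply Finset.sum_le_sum
      intro t _
      unfold box
      rw [Finset.card_product, Finset.card_product, Nat.card_Ioc, Nat.card_Ioc, Nat.card_Ioc, mul_assoc]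
      exact Nat.mul_le_mul (Nat.sub_le _ _) (Nat.mul_le_mul (Nat.sub_le _ _) (Nat.sub_le _ _))
    exact_mod_cast h12
  have h13 : (0 : ℝ) ≤ (X : ℝ) - Y := by
    have : (Y : ℝ) ≤ X := by exact_mod_cast hYX
    linarith
  have h14 := mul_le_mul_of_nonneg_left h2 h13
  linarith

end MP33509c
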