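import Mathlib
import Pool.Agent.H.MP_33509c_nt.Main

namespace MP33509c
open Finset Filter Topology

lemma fp_eq (p : ℕ) (hp : 0 < p) : fp p = 1 + (-3 / (p : ℝ) ^ 2 + 2 / (p : ℝ) ^ 3) := by
  have : (p : ℝ) ≠ 0 := by positivity
  unfold fp
  field_simp
  ring

lemma fp_pos (p : ℕ) (hp : 2 ≤ p) : 0 < fp p := by
  unfold fp
  have h : (2 : ℝ) ≤ p := by exact_mod_cast hp
  have h1 : 1 / (p : ℝ) ≤ 1 / 2 := one_div_le_one_div_of_le (by norm_num) h
  have h2 : 0 < 1 - 1 / (p : ℝ) := by linarith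
  positivity

lemma fp_le_one (p : ℕ) (hp : 2 ≤ p) : fp p ≤ 1 := by
  rw [fp_eq p (by omega)]
  have h : (2 : ℝ) ≤ p := by exact_mod_cast hp
  have h0 : (0 : ℝ) < p := by linarith
  have h1 : 2 / (p : ℝ) ^ 3 ≤ 3 / (p : ℝ) ^ 2 := by
    rw [div_le_div_iff₀ (by positivity) (by positivity)]
    nlinarith [pow_pos h0 2]
  have h2 : -3 / (p : ℝ) ^ 2 = -(3 / (p : ℝ) ^ 2) := by ring
  rw [h2]
  linarith

lemma summable_aux : Summable (fun p : Nat.Primes => (-3 / ((p : ℕ) : ℝ) ^ 2 + 2 / ((p : ℕ) : ℝ) ^ 3)) := by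
  have h1 : Summable (fun n : ℕ => -3 / (n : ℝ) ^ 2 + 2 / (n : ℝ) ^ 3) := by
    apply Summable.add
    · have := (Real.summable_one_div_nat_pow (p := 2)).2 (by norm_num)
      refine (this.mul_left (-3)).congr ?_
      intro n
      ring
    · have := (Real.summable_one_div_nat_pow (p := 3)).2 (by norm_num)
      refine (this.mul_left 2).congr ?_
      intro n
      ring
  exact h1.comp_injective (Subtype.val_injective)

lemma summable_log_fp : Summable (fun p : Nat.Primes => Real.log (fp p)) := by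
  have h := Real.summable_log_one_add_of_summable summable_aux
  refine h.congr ?_
  intro p
  rw [fp_eq p p.2.pos]

lemma multipliable_fp : Multipliable (fun p : Nat.Primes => fp p) :=
  Real.multipliable_of_summable_log (fun p => fp_pos p p.2.two_le) summable_log_fp

lemma tprod_fp_pos : 0 < ∏' p : Nat.Primes, fp p := by
  rw [← Real.rexp_tsum_eq_tprod (fun p : Nat.Primes => fp_pos p p.2.two_le) summable_log_fp]
  exact Real.exp_pos _

lemma tprod_fp_le (s : Finset Nat.Primes) : ∏' p : Nat.Primes, fp p ≤ ∏ p ∈ s, fp p := by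
  rw [← Real.rexp_tsum_eq_tprod (fun p : Nat.Primes => fp_pos p p.2.two_le) summable_log_fp]
  have h1 : ∏ p ∈ s, fp p = Real.exp (∑ p ∈ s, Real.log (fp p)) := by
    rw [Real.exp_sum]
    apply Finset.prod_congr rfl
    intro p _
    rw [Real.exp_log (fp_pos p p.2.two_le)]
  rw [h1, Real.exp_le_exp]
  have h2 : ∑ p ∈ s, (-Real.log (fp p)) ≤ ∑' p : Nat.Primes, (-Real.log (fp p)) := by
    apply Summable.sum_le_tsum
    · intro p _
      have := Real.log_nonpos (fp_pos p p.2.two_le).le (fp_le_one p p.2.two_le)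
      linarith
    · exact summable_log_fp.neg
  rw [Finset.sum_neg_distrib, tsum_neg] at h2
  linarith

/-- the conjectural constant -/
noncomputable def KK : ℝ := 11 / 8 * ∏' p : Nat.Primes, fp p

lemma KK_pos : 0 < KK := by
  unfold KK
  have := tprod_fp_pos
  positivity

lemma KK_le (z : ℕ) : KK ≤ 11 / 16 * ∏ p ∈ oddPrimes z, fp p := by
  classical
  have hall : ∀ p ∈ insert 2 (oddPrimes z), Nat.Prime p := by
    intro p hp
    rw [Finset.mem_insert] at hp
    rcases hp with h | h
    · rw [h]; exact Nat.prime_two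
    · exact (mem_oddPrimes.1 h).2
  have h1 : ∏' p : Nat.Primes, fp p ≤ ∏ p ∈ (insert 2 (oddPrimes z)).subtype Nat.Prime, fp p :=
    tprod_fp_le ((insert 2 (oddPrimes z)).subtype Nat.Prime)
  have hnot : 2 ∉ oddPrimes z := by
    intro h
    have h3 := (mem_oddPrimes.1 h).1.1
    omega
  rw [Finset.prod_subtype_of_mem fp hall, Finset.prod_insert hnot] at h1
  have h3 : fp 2 = 1 / 2 := by unfold fp; norm_num
  rw [h3] at h1
  unfold KK
  linarith

/-- index boxes -/
def Bxs (m : ℕ) : Finset (ℕ × ℕ × ℕ) :=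
  (range m ×ˢ range m ×ˢ range m).filter (fun t => t.1 + t.2.1 + t.2.2 + 2 ≤ 2 * m)

lemma inner_sum (i m : ℕ) (h : i ≤ m) : 2 * ∑ j ∈ range m, (i - j) = i * (i + 1) := by
  induction i generalizing m with
  | zero => simp
  | succ i ih =>
    obtain ⟨m', rfl⟩ : ∃ m', m = m' + 1 := ⟨m - 1, by omega⟩
    rw [Finset.sum_range_succ']
    have h1 : ∑ k ∈ range m', (i + 1 - (k + 1)) = ∑ k ∈ range m', (i - k) := by
      apply Finset.sum_congr rfl
      intro k _
      omega
    rw [h1, mul_add, ih m' (by omega)]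
    simp
    ring

lemma outer_sum (m : ℕ) : 3 * ∑ i ∈ range m, i * (i + 1) + m = m ^ 3 := by
  induction m with
  | zero => simp
  | succ m ih =>
    rw [Finset.sum_range_succ]
    nlinarith [ih]

lemma card_compl (m : ℕ) :
    6 * ((range m ×ˢ range m ×ˢ range m).filter (fun t => ¬ (t.1 + t.2.1 + t.2.2 + 2 ≤ 2 * m))).card ≤ m ^ 3 := by
  classical
  rw [Finset.card_filter, Finset.sum_product]
  have h1 : ∀ i ∈ range m, 2 * ∑ x ∈ range m ×ˢ range m, (if ¬ (i + x.1 + x.2 + 2 ≤ 2 * m) then 1 else 0) = i * (i + 1) := by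
    intro i hi
    rw [Finset.mem_range] at hi
    rw [Finset.sum_product]
    have h2 : ∀ j ∈ range m, ∑ k ∈ range m, (if ¬ (i + j + k + 2 ≤ 2 * m) then 1 else 0) = i + j + 1 - m := by
      intro j hj
      rw [Finset.mem_range] at hj
      rw [← Finset.card_filter]
      have h3 : (range m).filter (fun k => ¬ (i + j + k + 2 ≤ 2 * m)) = Ico (2 * m - 1 - i - j) m := by
        ext k
        rw [Finset.mem_filter, Finset.mem_range, Finset.mem_Ico]
        omega
      rw [h3, Nat.card_Ico]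
      omega
    rw [Finset.sum_congr rfl h2, ← Finset.sum_range_reflect]
    rw [← inner_sum i m hi.le]
    congr 1
    apply Finset.sum_congr rfl
    intro j hj
    rw [Finset.mem_range] at hj
    omega
  have h4 : 6 * ∑ x ∈ range m, ∑ y ∈ range m ×ˢ range m,
      (if ¬ (x + y.1 + y.2 + 2 ≤ 2 * m) then 1 else 0) = 3 * ∑ i ∈ range m, i * (i + 1) := by
    rw [← Finset.sum_congr rfl h1, ← Finset.mul_sum]
    ring
  rw [h4]
  have := outer_sum m
  omega

lemma card_Bxs (m : ℕ) : 5 * m ^ 3 ≤ 6 * (Bxs m).card := by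
  classical
  have h1 := card_compl m
  have h2 := Finset.card_filter_add_card_filter_not (s := range m ×ˢ range m ×ˢ range m)
    (fun t => t.1 + t.2.1 + t.2.2 + 2 ≤ 2 * m)
  rw [Finset.card_product, Finset.card_product, Finset.card_range] at h2
  have h3 : m * (m * m) = m ^ 3 := by ring
  unfold Bxs
  omega

end MP33509c
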