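import Mathlib
import Pool.Agent.H.MP_33509c_nt.Prod

namespace MP33509c
open Finset Filter Topology

/-- grid points -/
noncomputable def Af (M : ℕ) (x : ℝ) (i : ℕ) : ℕ := ⌊x ^ ((i : ℝ) / (2 * M))⌋₊

lemma Af_le (M : ℕ) (x : ℝ) (hx : 1 ≤ x) (i : ℕ) : (Af M x i : ℝ) ≤ x ^ ((i : ℝ) / (2 * M)) :=
  Nat.floor_le (Real.rpow_nonneg (by linarith) _)

lemma one_le_pow' (x : ℝ) (hx : 1 ≤ x) (e : ℝ) (he : 0 ≤ e) : 1 ≤ x ^ e := Real.one_le_rpow hx he

lemma Af_mono (M : ℕ) (x : ℝ) (hx : 1 ≤ x) : Monotone (Af M x) := by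
  intro i j hij
  apply Nat.floor_mono
  apply Real.rpow_le_rpow_of_exponent_le hx
  have : (i : ℝ) ≤ j := by exact_mod_cast hij
  gcongr

lemma half_le_floor (v : ℝ) (hv : 1 ≤ v) : v / 2 ≤ (⌊v⌋₊ : ℝ) := by
  have h1 : v < (⌊v⌋₊ : ℝ) + 1 := Nat.lt_floor_add_one v
  have h2 : 1 ≤ ⌊v⌋₊ := Nat.le_floor (by exact_mod_cast hv)
  have h3 : (1 : ℝ) ≤ (⌊v⌋₊ : ℝ) := by exact_mod_cast h2
  linarith

lemma Af_log (M Q : ℕ) (hM : 0 < M) (x : ℝ) (hx : 1 ≤ x) (i : ℕ) :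
    Real.log x / (2 * M) - Real.log (2 * (1 + Q)) ≤
      Real.log ((Af M x (i + 1) : ℝ) / (Af M x i + Q)) := by
  have hx0 : 0 < x := by linarith
  have hM' : (0 : ℝ) < M := by exact_mod_cast hM
  have hQ : (0 : ℝ) ≤ Q := Nat.cast_nonneg _
  set u := x ^ ((i : ℝ) / (2 * M)) with hu
  have hu1 : 1 ≤ u := one_le_pow' x hx _ (by positivity)
  set w := x ^ ((1 : ℝ) / (2 * M)) with hw
  have hw1 : 1 ≤ w := one_le_pow' x hx _ (by positivity)
  have hv : x ^ (((i + 1 : ℕ) : ℝ) / (2 * M)) = u * w := by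
    rw [hu, hw, ← Real.rpow_add hx0]
    congr 1
    push_cast
    ring
  have h1 : u * w / 2 ≤ (Af M x (i + 1) : ℝ) := by
    unfold Af
    rw [hv]
    apply half_le_floor
    nlinarith
  have h2 : (Af M x i : ℝ) + Q ≤ u * (1 + Q) := by
    have := Af_le M x hx i
    rw [← hu] at this
    nlinarith
  have h3 : w / (2 * (1 + Q)) ≤ (Af M x (i + 1) : ℝ) / (Af M x i + Q) := by
    have hA1 : 1 ≤ Af M x i := by
      unfold Af
      exact Nat.le_floor (by rw [Nat.cast_one]; exact hu1)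
    have hA1' : (1 : ℝ) ≤ Af M x i := by exact_mod_cast hA1
    rw [div_le_div_iff₀ (by positivity) (by positivity)]
    calc w * ((Af M x i : ℝ) + Q) ≤ w * (u * (1 + Q)) := by gcongr
      _ = (u * w / 2) * (2 * (1 + Q)) := by ring
      _ ≤ (Af M x (i + 1) : ℝ) * (2 * (1 + Q)) := by gcongr
  have h4 : Real.log (w / (2 * (1 + Q))) = Real.log x / (2 * M) - Real.log (2 * (1 + Q)) := by
    rw [Real.log_div (by positivity) (by positivity), hw, Real.log_rpow hx0]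
    ring
  rw [← h4]
  exact Real.log_le_log (by positivity) h3

/-- the sum of the problem -/
noncomputable def SS (x : ℝ) : ℝ := ∑ n ∈ Icc 1 ⌊x⌋₊, (ddd n : ℝ)

lemma lower (z M Q : ℕ) (Mz : ℝ) (hz : 0 < z) (hM : 0 < M) (hPM : PM (gz z) Mz Q) (x : ℝ) (hx : 1 ≤ x)
    (hl0 : 0 ≤ Real.log x / (2 * M) - Real.log (2 * (1 + Q)))
    (hBr : 0 ≤ ((Bxs (M - 1)).card : ℝ) * (Mz * (Real.log x / (2 * M) - Real.log (2 * (1 + Q))) ^ 3) -
      6 / z * (1 + Real.log x) ^ 3) :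
    8 * ((x - 1 - x ^ (1 - 1 / (M : ℝ))) *
      (((Bxs (M - 1)).card : ℝ) * (Mz * (Real.log x / (2 * M) - Real.log (2 * (1 + Q))) ^ 3) -
      6 / z * (1 + Real.log x) ^ 3) - (Bxs (M - 1)).card * x ^ (1 - 1 / (2 * M : ℝ))) ≤ SS x := by
  classical
  have hx0 : 0 < x := by linarith
  have hM' : (0 : ℝ) < M := by exact_mod_cast hM
  have hz' : (0 : ℝ) < z := by exact_mod_cast hz
  set m := M - 1 with hm
  have hmM : (m : ℝ) = M - 1 := by
    rw [hm, Nat.cast_sub hM]; norm_num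
  set l := Real.log x / (2 * M) - Real.log (2 * (1 + Q)) with hl
  have hlog : 0 ≤ Real.log x := Real.log_nonneg hx
  -- Y
  set Y := ⌊x ^ (1 - 1 / (M : ℝ))⌋₊ with hYdef
  have hA : (Af M x m : ℝ) * Af M x m ≤ x ^ (1 - 1 / (M : ℝ)) := by
    have h1 := Af_le M x hx m
    have h2 : x ^ (1 - 1 / (M : ℝ)) = x ^ ((m : ℝ) / (2 * M)) * x ^ ((m : ℝ) / (2 * M)) := by
      rw [← Real.rpow_add hx0]
      congr 1
      rw [hmM]
      field_simp
      ring
    rw [h2]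
    exact mul_le_mul h1 h1 (Nat.cast_nonneg _) (Real.rpow_nonneg hx0.le _)
  have hY : Af M x m * Af M x m ≤ Y := Nat.le_floor (by push_cast; exact hA)
  have hYX : Y ≤ ⌊x⌋₊ := by
    apply Nat.floor_mono
    have : (1 : ℝ) - 1 / M ≤ 1 := by
      have : (0 : ℝ) ≤ 1 / M := by positivity
      linarith
    calc x ^ (1 - 1 / (M : ℝ)) ≤ x ^ (1 : ℝ) := Real.rpow_le_rpow_of_exponent_le hx this
      _ = x := Real.rpow_one x
  have hmain := main_ineq z m Y ⌊x⌋₊ Q Mz l hz hPM (Af M x) (Af_mono M x hx) hY hYX (Bxs m)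
    (by
      intro t ht
      unfold Bxs at ht
      rw [Finset.mem_filter] at ht
      simp only [Finset.mem_product, Finset.mem_range] at ht
      exact ht.1) hl0 (fun i _ => Af_log M Q hM x hx i)
  refine le_trans ?_ hmain
  apply mul_le_mul_of_nonneg_left _ (by norm_num)
  apply sub_le_sub
  · have h1 : x - 1 - x ^ (1 - 1 / (M : ℝ)) ≤ ((⌊x⌋₊ : ℕ) : ℝ) - (Y : ℝ) := by
      have h2 : x < (⌊x⌋₊ : ℝ) + 1 := Nat.lt_floor_add_one x
      have h3 : (Y : ℝ) ≤ x ^ (1 - 1 / (M : ℝ)) := Nat.floor_le (Real.rpow_nonneg hx0.le _)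
      linarith
    have h4 : (0 : ℝ) ≤ ((⌊x⌋₊ : ℕ) : ℝ) - (Y : ℝ) := by
      have : (Y : ℝ) ≤ (⌊x⌋₊ : ℕ) := by exact_mod_cast hYX
      linarith
    have h5 : Hs (Af M x m) ≤ 1 + Real.log x := by
      refine (Hs_le _).trans ?_
      have h6 : 1 ≤ Af M x m := by
        unfold Af
        exact Nat.le_floor (by exact_mod_cast one_le_pow' x hx _ (by positivity))
      have h7 : (Af M x m : ℝ) ≤ x := by
        refine (Af_le M x hx m).trans ?_
        calc x ^ ((m : ℝ) / (2 * M)) ≤ x ^ (1 : ℝ) := by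
              apply Real.rpow_le_rpow_of_exponent_le hx
              rw [div_le_one (by positivity), hmM]
              linarith
          _ = x := Real.rpow_one x
      have h8 : (0 : ℝ) < Af M x m := by
        have : 0 < Af M x m := by omega
        exact_mod_cast this
      have := Real.log_le_log h8 h7
      linarith
    have h9 : Hs (Af M x m) ^ 3 ≤ (1 + Real.log x) ^ 3 := pow_le_pow_left₀ (Hs_nonneg _) h5 3
    have h10 : ((Bxs m).card : ℝ) * (Mz * l ^ 3) - 6 / z * (1 + Real.log x) ^ 3 ≤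
        ((Bxs m).card : ℝ) * (Mz * l ^ 3) - 6 / z * Hs (Af M x m) ^ 3 := by
      have : 6 / (z : ℝ) * Hs (Af M x m) ^ 3 ≤ 6 / z * (1 + Real.log x) ^ 3 := by gcongr
      linarith
    calc _ ≤ (((⌊x⌋₊ : ℕ) : ℝ) - (Y : ℝ)) * (((Bxs m).card : ℝ) * (Mz * l ^ 3) - 6 / z * (1 + Real.log x) ^ 3) :=
          mul_le_mul_of_nonneg_right h1 hBr
      _ ≤ _ := mul_le_mul_of_nonneg_left h10 h4
  · rw [← nsmul_eq_mul, ← Finset.sum_const]
    apply Finset.sum_le_sum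
    intro t ht
    unfold Bxs at ht
    rw [Finset.mem_filter] at ht
    have e1 := Af_le M x hx (t.1 + 1)
    have e2 := Af_le M x hx (t.2.1 + 1)
    have e3 := Af_le M x hx (t.2.2 + 1)
    calc (Af M x (t.1 + 1) : ℝ) * Af M x (t.2.1 + 1) * Af M x (t.2.2 + 1)
        ≤ x ^ (((t.1 + 1 : ℕ) : ℝ) / (2 * M)) * x ^ (((t.2.1 + 1 : ℕ) : ℝ) / (2 * M)) *
            x ^ (((t.2.2 + 1 : ℕ) : ℝ) / (2 * M)) := by gcongr
      _ = x ^ ((((t.1 + t.2.1 + t.2.2 + 3 : ℕ)) : ℝ) / (2 * M)) := by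
          rw [← Real.rpow_add hx0, ← Real.rpow_add hx0]
          congr 1
          push_cast
          ring
      _ ≤ x ^ (1 - 1 / (2 * M : ℝ)) := by
          apply Real.rpow_le_rpow_of_exponent_le hx
          have h1 : t.1 + t.2.1 + t.2.2 + 3 ≤ 2 * M - 1 := by omega
          have h2 : ((t.1 + t.2.1 + t.2.2 + 3 : ℕ) : ℝ) ≤ 2 * M - 1 := by
            have h3 : t.1 + t.2.1 + t.2.2 + 3 + 1 ≤ 2 * M := by omega
            have h4 : ((t.1 + t.2.1 + t.2.2 + 3 : ℕ) : ℝ) + 1 ≤ 2 * M := by exact_mod_cast h3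
            linarith
          have h5 : (1 : ℝ) - 1 / (2 * M) = (2 * M - 1) / (2 * M) := by field_simp
          rw [h5]
          gcongr

end MP33509c
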